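import Mathlib

set_option autoImplicit false

open Set Filter Topology

namespace Pool.Agent.Results.MP_c5d79e_gt.SeparablePart

/-- `C_p(X)`: continuous real functions with the topology of pointwise convergence. -/
abbrev Cp (X : Type*) [TopologicalSpace X] : Type _ := {f : X → ℝ // Continuous f}

variable {X : Type*} [TopologicalSpace X]

lemma tendsto_cp {ι : Type*} {l : Filter ι} (u : ι → Cp X) (f : Cp X) :
    Tendsto u l (𝓝 f) ↔ ∀ x, Tendsto (fun i => (u i).1 x) l (𝓝 (f.1 x)) := by
  rw [tendsto_subtype_rng, tendsto_pi_nhds]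

/-- `f` plus the difference `h - f` cut off at `-1` and `1` -/
noncomputable def cl (f h : Cp X) : Cp X :=
  ⟨fun x => f.1 x + max (-1) (min 1 (h.1 x - f.1 x)),
    f.2.add (continuous_const.max (continuous_const.min (h.2.sub f.2)))⟩

lemma cl_self (f : Cp X) : cl f f = f := by
  apply Subtype.ext
  funext x
  simp [cl]

lemma eval_cont (x : X) : Continuous (fun h : Cp X => h.1 x) :=
  (continuous_apply x).comp continuous_subtype_val

lemma cl_cont (f : Cp X) : Continuous (cl f) := by
  refine Continuous.subtype_mk (continuous_pi fun x => ?_) _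
  exact continuous_const.add (continuous_const.max (continuous_const.min
    ((eval_cont x).sub continuous_const)))

theorem exists_discrete [T2Space X] [CompletelyRegularSpace X] [Infinite X]
    (E : Set (Cp X)) (hE : E.Countable) (hEne : E.Nonempty) (f : Cp X) :
    ∃ D : Set (Cp X), D.Countable ∧ DiscreteTopology D ∧
      ∀ a ∈ closure E, cl f a ∈ closure D := by
  obtain ⟨e, he⟩ := hE.exists_eq_range hEne
  obtain ⟨U, hUinf, hUo, hUd⟩ := exists_seq_infinite_isOpen_pairwise_disjoint X
  have hpt : ∀ n, ∃ x, x ∈ U n := fun n => (hUinf n).nonempty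
  choose pt hpt using hpt
  have hg : ∀ n, ∃ g : X → ℝ, Continuous g ∧ g (pt n) = 1 ∧ (∀ x, x ∉ U n → g x = 0) := by
    intro n
    obtain ⟨φ, hφ, h0, h1⟩ := CompletelyRegularSpace.completely_regular (pt n) (U n)ᶜ
      (hUo n).isClosed_compl (fun hx => hx (hpt n))
    refine ⟨fun x => 1 - (φ x : ℝ), continuous_const.sub (continuous_subtype_val.comp hφ), ?_, ?_⟩
    · simp [h0]
    · intro x hx
      have := h1 hx
      simp [this]
  choose g hgc hg1 hg0 using hg
  let d : ℕ × ℕ → Cp X := fun q =>
    ⟨fun x => (cl f (e q.1)).1 x + 3 * g (Nat.pair q.1 q.2) x,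
      (cl f (e q.1)).2.add (continuous_const.mul (hgc _))⟩
  have hcl1 : ∀ (a : Cp X) (x : X), (cl f a).1 x ≤ f.1 x + 1 := by
    intro a x
    simp only [cl]
    have : max (-1) (min 1 (a.1 x - f.1 x)) ≤ 1 := max_le (by norm_num) (min_le_left _ _)
    linarith
  have hcl2 : ∀ (a : Cp X) (x : X), f.1 x - 1 ≤ (cl f a).1 x := by
    intro a x
    simp only [cl]
    have : -1 ≤ max (-1) (min 1 (a.1 x - f.1 x)) := le_max_left _ _
    linarith
  have hmem : ∀ m n, m ≠ n → pt n ∉ U m := by
    intro m n hmn hx
    exact Set.disjoint_left.1 (hUd hmn) hx (hpt n)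
  -- D is discrete
  have hD : DiscreteTopology (range d) := by
    rw [discreteTopology_subtype_iff']
    rintro _ ⟨q, rfl⟩
    refine ⟨{k : Cp X | f.1 (pt (Nat.pair q.1 q.2)) + 3 / 2 < k.1 (pt (Nat.pair q.1 q.2))},
      isOpen_lt continuous_const (eval_cont _), ?_⟩
    apply Set.Subset.antisymm
    · rintro _ ⟨hk, ⟨r, rfl⟩⟩
      by_cases hqr : r = q
      · rw [hqr]; rfl
      · exfalso
        have hne : Nat.pair r.1 r.2 ≠ Nat.pair q.1 q.2 := by
          intro hp
          rw [Nat.pair_eq_pair] at hp
          exact hqr (Prod.ext hp.1 hp.2)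
        have h0 := hg0 (Nat.pair r.1 r.2) _ (hmem _ _ hne)
        have h1 := hcl1 (e r.1) (pt (Nat.pair q.1 q.2))
        have hk' : f.1 (pt (Nat.pair q.1 q.2)) + 3 / 2 <
          (cl f (e r.1)).1 (pt (Nat.pair q.1 q.2)) +
            3 * g (Nat.pair r.1 r.2) (pt (Nat.pair q.1 q.2)) := hk
        rw [h0] at hk'
        linarith
    · rintro _ rfl
      refine ⟨?_, ⟨q, rfl⟩⟩
      change f.1 (pt (Nat.pair q.1 q.2)) + 3 / 2 <
          (cl f (e q.1)).1 (pt (Nat.pair q.1 q.2)) +
            3 * g (Nat.pair q.1 q.2) (pt (Nat.pair q.1 q.2))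
      have h1 := hcl2 (e q.1) (pt (Nat.pair q.1 q.2))
      rw [hg1]
      linarith
  -- the cut-offs of members of E are limits of members of D
  have hlim : ∀ n, cl f (e n) ∈ closure (range d) := by
    intro n
    refine mem_closure_of_tendsto (f := fun k : ℕ => d (n, k)) (b := atTop) ?_
      (Eventually.of_forall fun k => ⟨(n, k), rfl⟩)
    rw [tendsto_cp]
    intro x
    have hev : ∀ᶠ k : ℕ in atTop, (d (n, k)).1 x = (cl f (e n)).1 x := by
      by_cases hex : ∃ k0, x ∈ U (Nat.pair n k0)
      · obtain ⟨k0, hk0⟩ := hex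
        filter_upwards [eventually_gt_atTop k0] with k hk
        have hne : Nat.pair n k0 ≠ Nat.pair n k := by
          intro hp
          rw [Nat.pair_eq_pair] at hp
          omega
        have hxk : x ∉ U (Nat.pair n k) := fun hx => Set.disjoint_left.1 (hUd hne) hk0 hx
        change (cl f (e n)).1 x + 3 * g (Nat.pair n k) x = _
        rw [hg0 _ _ hxk]
        ring
      · push Not at hex
        refine Eventually.of_forall fun k => ?_
        change (cl f (e n)).1 x + 3 * g (Nat.pair n k) x = _
        rw [hg0 _ _ (hex k)]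
        ring
    exact (tendsto_congr' hev).2 tendsto_const_nhds
  have hclE : ∀ a ∈ closure E, cl f a ∈ closure (range d) := by
    intro a ha
    have h1 : cl f a ∈ closure (cl f '' E) :=
      image_closure_subset_closure_image (cl_cont f) ⟨a, ha, rfl⟩
    refine closure_minimal ?_ isClosed_closure h1
    rintro _ ⟨b, hb, rfl⟩
    rw [he] at hb
    obtain ⟨n, rfl⟩ := hb
    exact hlim n
  exact ⟨range d, countable_range d, hD, hclE⟩

/-- Realcompact: homeomorphic to a closed subspace of a power of the reals. -/
def Realcompact (Z : Type) [TopologicalSpace Z] : Prop :=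
  ∃ (κ : Type) (i : Z → (κ → ℝ)), IsClosedEmbedding i

noncomputable def sg (t : ℝ) : ℝ := t / (1 + |t|)

lemma sg_cont : Continuous sg :=
  continuous_id.div (continuous_const.add continuous_abs) (fun t => by positivity)

lemma sg_abs (t : ℝ) : |sg t| < 1 := by
  unfold sg
  rw [abs_div, abs_of_pos (show 0 < 1 + |t| by positivity), div_lt_one (by positivity)]
  linarith

lemma sg_inv (t : ℝ) : sg t / (1 - |sg t|) = t := by
  have h0 : 0 < 1 + |t| := by positivity
  have h1 : |sg t| = |t| / (1 + |t|) := by
    unfold sg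
    rw [abs_div, abs_of_pos h0]
  rw [h1]
  unfold sg
  have h2 : 1 - |t| / (1 + |t|) = 1 / (1 + |t|) := by
    field_simp
    ring
  rw [h2]
  field_simp

/-- If `C_p(X)` is separable and closures of its countable discrete subsets are realcompact, then
`C_p(X)` is realcompact. -/
theorem result (X : Type) [TopologicalSpace X] [T2Space X] [CompletelyRegularSpace X]
    (hsep : TopologicalSpace.SeparableSpace (Cp X))
    (h : ∀ D : Set (Cp X), D.Countable → DiscreteTopology D → Realcompact (closure D)) :
    Realcompact (Cp X) := by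
  rcases finite_or_infinite X with hX | hX
  · refine ⟨X, Subtype.val, Topology.IsEmbedding.subtypeVal, ?_⟩
    have : range (Subtype.val : Cp X → X → ℝ) = univ := by
      apply eq_univ_of_forall
      intro f
      exact ⟨⟨f, continuous_of_discreteTopology⟩, rfl⟩
    rw [this]
    exact isClosed_univ
  obtain ⟨E, hE, hEd⟩ := TopologicalSpace.exists_countable_dense (Cp X)
  let z : Cp X := ⟨fun _ => 0, continuous_const⟩
  have hEne : E.Nonempty := hEd.nonempty_iff.2 ⟨z⟩
  obtain ⟨D, hDc, hDd, hD⟩ := exists_discrete E hE hEne z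
  obtain ⟨κ, ι, hι⟩ := h D hDc hDd
  have hmem : ∀ a : Cp X, (⟨fun x => sg (a.1 x), sg_cont.comp a.2⟩ : Cp X) ∈ closure D := by
    intro a
    have h1 := hD ⟨fun x => sg (a.1 x), sg_cont.comp a.2⟩ (by rw [hEd.closure_eq]; trivial)
    convert h1 using 1
    apply Subtype.ext
    funext x
    have h2 := abs_lt.1 (sg_abs (a.1 x))
    simp only [cl, z, zero_add, sub_zero]
    rw [min_eq_right h2.2.le, max_eq_right h2.1.le]
  let S : Cp X → closure D := fun a => ⟨⟨fun x => sg (a.1 x), sg_cont.comp a.2⟩, hmem a⟩
  have hS : Continuous S := by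
    refine Continuous.subtype_mk (Continuous.subtype_mk (continuous_pi fun x => ?_) _) _
    exact sg_cont.comp (eval_cont x)
  let j : Cp X → (κ → ℝ) × (X → ℝ) := fun a => (ι (S a), a.1)
  have hj : IsClosedEmbedding j := by
    refine ⟨⟨?_, ?_⟩, ?_⟩
    · refine Topology.IsInducing.of_comp ((hι.continuous.comp hS).prodMk continuous_subtype_val)
        continuous_snd ?_
      exact Topology.IsInducing.subtypeVal
    · intro a b hab
      exact Subtype.ext (congrArg Prod.snd hab)
    · have hcl : IsClosed {p : closure D × (X → ℝ) | ∀ x, p.1.1.1 x = sg (p.2 x)} := by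
        rw [ofPred_forall]
        refine isClosed_iInter fun x => isClosed_eq ?_ ?_
        · exact (eval_cont x).comp (continuous_subtype_val.comp continuous_fst)
        · exact sg_cont.comp ((continuous_apply x).comp continuous_snd)
      have himg := (hι.prodMap (IsClosedEmbedding.id (X := X → ℝ))).isClosedMap _ hcl
      convert himg using 1
      ext ⟨u, v⟩
      constructor
      · rintro ⟨a, ha⟩
        refine ⟨(S a, a.1), fun x => rfl, ha⟩
      · rintro ⟨⟨w, v'⟩, hw, hwe⟩
        have e1 : ι w = u := congrArg Prod.fst hwe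
        have e2 : v' = v := congrArg Prod.snd hwe
        subst e2
        have hw' : ∀ x, w.1.1 x = sg (v' x) := hw
        have hv : Continuous v' := by
          have : v' = fun x => w.1.1 x / (1 - |w.1.1 x|) := by
            funext x
            rw [hw' x, sg_inv]
          rw [this]
          refine w.1.2.div (continuous_const.sub w.1.2.abs) (fun x => ?_)
          have := sg_abs (v' x)
          rw [hw' x]
          linarith
        refine ⟨⟨v', hv⟩, ?_⟩
        have : S ⟨v', hv⟩ = w := by
          apply Subtype.ext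
          apply Subtype.ext
          funext x
          exact (hw' x).symm
        change (ι (S ⟨v', hv⟩), v') = (u, v')
        rw [this, e1]
  let e := (Homeomorph.sumPiEquivProdPi κ X (fun _ => ℝ)).symm
  exact ⟨κ ⊕ X, fun a => e (j a), e.isClosedEmbedding.comp hj⟩

end Pool.Agent.Results.MP_c5d79e_gt.SeparablePart
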